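import Mathlib
import Pool.Agent.Helper12.Oper
import Pool.Agent.Helper68.OperW.Oper
import Pool.Agent.Helper68.OperW.Main

/-!
# Opers with nilpotent `p`-curvature on genus zero orbifolds are defined over `ℚ̄`

`R` is a domain finitely generated over `ℤ`, `K` its field of fractions (characteristic zero),
`f = ∏ (x - b_i)` with distinct `b_i ∈ R`, two of which are `0` and `1`, and `y² = f`.
We consider normalised operators of order `r ≥ 2` with arbitrary rational local types `δ i` at the
points `b_i` and `δ'` at infinity (see `IsOperOfType`)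

  `L = ∂ ^ r + ∑_{2 ≤ j ≤ r} (P_j + Q_j y) / f ^ j · ∂ ^ (r - j)`,  `∂ = d/dx`,  `P_j, Q_j ∈ R[x]`.

For `r = 2` and `Q = 0` these are the second order Fuchsian equations on the projective line with
`N = n + 1` singular points, exponent differences `μ` given by `δ = (μ ^ 2 - 1) / 4`, and arbitrary
accessory parameters (Heun equations for `N = 4`). The local types of an orbifold point of order
`m` and of a cusp are `δ = (1 / m ^ 2 - 1) / 4 ≤ - 3 / 16` and `δ = - 1 / 4`. Hypothesis `hδ` is
therefore satisfied (second alternative) by the projective line with `N ≥ 4` orbifold points or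
cusps of arbitrary orders, as soon as it is hyperbolic, and (first alternative) by many more local
types; for `N = 4` it says `∑ μ ^ 2 < 1`.

The theorem: if the reductions of `L` at all closed points of a nonempty open subset of `Spec R`
have nilpotent `p`-curvature, then the points and the operator are defined over `ℚ̄`.
-/

namespace Pool.Agent.Results.MP_0707f5_ag.OrbifoldOpers

open Polynomial Helper12 Helper12.W

universe u v

theorem result {R : Type u} {K : Type v} [CommRing R] [IsDomain R] [Algebra.FiniteType ℤ R]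
    [Field K] [CharZero K] [Algebra R K] [IsFractionRing R K]
    (n r : ℕ) (hr : 2 ≤ r) (δ : Fin n → ℚ) (δ' : ℚ)
    (hδ : CutCondition n δ δ' ∨
      ((∀ i, δ i ≤ -3 / 16) ∧ δ' ≤ -3 / 16 ∧ (n = 3 → (∑ i, δ i) + δ' ≠ -3 / 4)))
    (b : Fin n → R) (hb : Function.Injective b) (hb0 : ∃ i, b i = 0) (hb1 : ∃ i, b i = 1)
    (P Q : ℕ → R[X]) (hL : IsOperOfType K r δ δ' b P Q)
    (h : R) (hh : h ≠ 0) (hnil : NilpotentAtClosedPoints r b P Q h) :
    (∀ i, IsAlgebraic ℚ (algebraMap R K (b i))) ∧
    ∀ j, 1 ≤ j → j ≤ r → ∀ m, IsAlgebraic ℚ (algebraMap R K ((P j).coeff m)) ∧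
      IsAlgebraic ℚ (algebraMap R K ((Q j).coeff m)) :=
  Helper12.W.main n r hr δ δ'
    (hδ.elim id (fun h1 => cutCondition_of_le n δ δ' h1.1 h1.2.1 h1.2.2))
    b hb hb0 hb1 P Q hL h hh hnil

end Pool.Agent.Results.MP_0707f5_ag.OrbifoldOpers
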